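import Pool.Agent.Helper78.LN.Base

/-!
# The adaptive version: assembly
-/

namespace Pool.Agent.Helper78.LN

open Pool.Agent.Helper81.CC Pool.Agent.Helper51.ZP Pool.Agent.Bin Matrix Computability
open Pool.Agent.Helper31.TMSim Pool.Agent.Helper83.CL
open Pool.Agent.Helper78.LM (PT_of_comp eval_mono orth paths er inst cnt lprod errs_zero_iff
  acc_le_orth signs mem_paths)

theorem length_vecs_le (N : ℕ) : (vecs N).length ≤ 2 * N + 1 := by
  obtain ⟨k, -, -, h2, -, h4⟩ := iter_vecs N N
  rw [vecs, h2]
  exact h4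

theorem orth_le_one (B : Pool.Agent.Helper78.LM.LinMachine) (y : List Bool) (N : ℕ)
    (cc : List Bool) (T : ℕ) (hT : B.stages y = T) :
    orth B y N cc ≤ B.acc y + ((paths B y).filter fun ps =>
      (∃ j < T, er B y ps j ≠ 0) ∧ ∀ s' ∈ vecs N, lprod cc s' T (er B y ps) = 0).card := by
  classical
  subst hT
  rw [Pool.Agent.Helper61.LM.acc B y, orth]
  refine (Finset.card_le_card ?_).trans (Finset.card_union_le _ _)
  intro ps hps
  rw [Finset.mem_filter] at hps
  rw [Finset.mem_union, Finset.mem_filter, Finset.mem_filter]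
  by_cases h2 : ∃ j < B.stages y, er B y ps j ≠ 0
  · exact Or.inr ⟨hps.1, h2, hps.2⟩
  · exact Or.inl ⟨Finset.mem_univ _, (mem_paths B y ps).1 hps.1,
      (errs_zero_iff B y ps).2 h2⟩

section
variable (B : Pool.Agent.Helper78.LM.LinMachine) (S : Finset (List Bool))
  (f : List Bool → List Bool) (T : ℕ)

/-- a good shift register for all inputs `f s`, `s ∈ S` -/
theorem orth_sum_le (hT : ∀ s ∈ S, B.stages (f s) = T) (hr : ∀ s ∈ S, B.numReads (f s) = 0)
    {N : ℕ} (hN : 2 ≤ N) :
    ∃ cc ∈ vecs N, N * ∑ s ∈ S, orth B (f s) N cc ≤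
      N * ∑ s ∈ S, B.acc (f s) + T * (S.card * 2 ^ T) := by
  classical
  set I : Finset (Σ s : List Bool, (Fin (B.stages (f s)) → Bool × Bool)) :=
    S.sigma fun s => paths B (f s) with hI
  obtain ⟨cc, hcc, h⟩ := Pool.Agent.Helper55.LM.hsb N T I (fun i => er B (f i.1) i.2) hN
  refine ⟨cc, hcc, ?_⟩
  have h1 : ∀ s ∈ S, orth B (f s) N cc ≤ B.acc (f s) + ((paths B (f s)).filter fun ps =>
      (∃ j < T, er B (f s) ps j ≠ 0) ∧
        ∀ s' ∈ vecs N, lprod cc s' T (er B (f s) ps) = 0).card := by
    intro s hs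
    exact orth_le_one B (f s) N cc T (hT s hs)
  have h2 : ∑ s ∈ S, ((paths B (f s)).filter fun ps =>
      (∃ j < T, er B (f s) ps j ≠ 0) ∧
        ∀ s' ∈ vecs N, lprod cc s' T (er B (f s) ps) = 0).card =
      (I.filter fun i => (∃ j < T, er B (f i.1) i.2 j ≠ 0) ∧
        ∀ s' ∈ vecs N, lprod cc s' T (er B (f i.1) i.2) = 0).card := by
    rw [← Finset.card_sigma]
    congr 1
    ext ⟨s, ps⟩
    simp only [hI, Finset.mem_sigma, Finset.mem_filter]
    tauto
  have h3 : I.card ≤ S.card * 2 ^ T := by
    rw [hI, Finset.card_sigma, Finset.card_eq_sum_ones, Finset.sum_mul]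
    refine Finset.sum_le_sum fun s hs => ?_
    have e1 : (paths B (f s)).card ≤ 2 ^ (B.stages (f s) + B.numReads (f s)) :=
      Pool.Agent.Helper61.LM.npv B (f s)
    have e2 : 2 ^ (B.stages (f s) + B.numReads (f s)) = 2 ^ T := by
      rw [hT s hs, hr s hs, add_zero]
    rw [one_mul, ← e2]
    exact e1
  calc N * ∑ s ∈ S, orth B (f s) N cc
      ≤ N * ∑ s ∈ S, (B.acc (f s) + ((paths B (f s)).filter fun ps =>
        (∃ j < T, er B (f s) ps j ≠ 0) ∧
        ∀ s' ∈ vecs N, lprod cc s' T (er B (f s) ps) = 0).card) :=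
        Nat.mul_le_mul_left _ (Finset.sum_le_sum h1)
    _ = N * ∑ s ∈ S, B.acc (f s) + N * (I.filter fun i => (∃ j < T, er B (f i.1) i.2 j ≠ 0) ∧
        ∀ s' ∈ vecs N, lprod cc s' T (er B (f i.1) i.2) = 0).card := by
        rw [Finset.sum_add_distrib, h2, Nat.mul_add]
    _ ≤ N * ∑ s ∈ S, B.acc (f s) + T * I.card := Nat.add_le_add_left h _
    _ ≤ _ := Nat.add_le_add_left (Nat.mul_le_mul_left _ h3) _

end

/-- the list of the admissible strings of answers -/
def SS (A : LinMachine) (N : ℕ) (x : List Bool) : List (List Bool) :=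
  (vecs N).filter fun s => Val A x s

theorem sum_SS {M : Type} [AddCommMonoid M] (A : LinMachine) (N : ℕ) (x : List Bool)
    (f : List Bool → M) : ((SS A N x).map f).sum =
      ∑ s ∈ (vecs N).toFinset.filter (fun s => Val A x s = true), f s := by
  have hnd : (SS A N x).Nodup := (Pool.Agent.Helper61.LM.nodup_vecs N).filter _
  have h1 : (vecs N).toFinset.filter (fun s => Val A x s = true) = (SS A N x).toFinset := by
    ext s
    simp [SS]
  rw [h1, List.sum_toFinset _ hnd]

/-- **AS2.** -/
theorem as2 (hrpt : RptStmt) (hrun : RunStmt) (hsum : SumStmt) (c : ℕ) (L : Set (List Bool))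
    (hL : DecidedWithGap (fun n => c * Nat.log 2 n + c) L) : InP L := by
  obtain ⟨A, u, g, hg, hR, hyes, hno⟩ := hL
  obtain ⟨h1, h2, h3, h4, h5, h6, hValP⟩ := hrpt A
  set B := red A h1 h2 h3 h4 h5 h6 with hB
  obtain ⟨G, hG, hGval⟩ := Pool.Agent.Helper38.LM.pda Pool.Agent.Helper77.LM.pdd
  have hgP : PolyTime g := PT_of_comp hg
  have hinst := Pool.Agent.Helper8.LM.pti B
  -- the strings of answers
  set N1 : List Bool → ℕ := fun x => 2 ^ c * (x.length + 1) ^ c with hN1
  have hN1P : PolyTime N1 := by
    have h3 : PolyTime (fun x : List Bool => (x.length + 1) ^ c) :=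
      PolyTime.pow (by fun_prop) c
    exact PolyTime.mul (by fun_prop) h3
  -- the number of the stages of the simulating machine
  set Tp : List Bool → ℕ := fun x =>
    A.T.eval (pairEnc x ((vecs (N1 x)).headD [])).length + 1 with hTp
  have hpairP : PolyTime (fun z : List Bool × List Bool => pairEnc z.1 z.2) := by
    unfold pairEnc
    exact PolyTime.append (PolyTime.flatMap (f := fun _ b => [true, b]) (by fun_prop)
      (by fun_prop)) (PolyTime.list_cons (by fun_prop) (by fun_prop))
  have hTpP : PolyTime Tp := by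
    have e1 : PolyTime (fun x : List Bool => (vecs (N1 x)).headD []) :=
      PolyTime.headD (PT_vecs hN1P) (by fun_prop)
    have e2 : PolyTime (fun x : List Bool => pairEnc x ((vecs (N1 x)).headD [])) :=
      PolyTime.comp (g := fun z : List Bool × List Bool => pairEnc z.1 z.2)
        (f := fun x => (x, (vecs (N1 x)).headD [])) hpairP (PolyTime.pair (by fun_prop) e1)
    exact PolyTime.add (PT_eval A.T (PolyTime.length e2)) (by fun_prop)
  have hstB : ∀ y, B.stages y = A.T.eval y.length + 1 := by
    intro y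
    rw [hB, Pool.Agent.Helper78.LM.LinMachine.stages, red]
    simp
  have hlenv : ∀ x, ∀ s ∈ vecs (N1 x), s.length = ((vecs (N1 x)).headD []).length := by
    intro x s hs
    obtain ⟨k, -, hk⟩ := vecs_spec (N1 x)
    rw [(hk s).1 hs]
    rcases hv : vecs (N1 x) with _ | ⟨a, l⟩
    · rw [hv] at hs; simp at hs
    · rw [List.headD_cons, (hk a).1 (by rw [hv]; simp)]
  have hstB' : ∀ x, ∀ s ∈ vecs (N1 x), B.stages (pairEnc x s) = Tp x := by
    intro x s hs
    rw [hstB, hTp]
    simp only [length_pairEnc, hlenv x s hs]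
  have hTle : ∀ x, A.stages x ≤ Tp x := by
    intro x
    have : x.length ≤ (pairEnc x ((vecs (N1 x)).headD [])).length := by
      rw [length_pairEnc]; omega
    exact (eval_mono A.T this).trans (Nat.le_succ _)
  -- the size of the field
  set N : List Bool → ℕ := fun x => u.eval x.length * Tp x * (2 * N1 x + 1) + 2 with hN
  have huP : PolyTime (fun x : List Bool => u.eval x.length) := PT_eval u (by fun_prop)
  have hNP : PolyTime N := by
    exact PolyTime.add (PolyTime.mul (PolyTime.mul huP hTpP) (PolyTime.add (PolyTime.mul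
      (by fun_prop) hN1P) (by fun_prop))) (by fun_prop)
  have hN2 : ∀ x, 2 ≤ N x := fun x => by simp [hN]
  -- the list of the strings of answers
  have hSSP : PolyTime (fun x : List Bool => SS A (N1 x) x) := by
    refine PolyTime.filter (f := fun x s => Val A x s) (PT_vecs hN1P) ?_
    exact hValP
  -- the counts
  set E : List ℕ → List Bool → List Bool → List Bool → List Bool → BN := fun F x cc s s' =>
    G (F, inst B (pairEnc x s) (lfsr cc s' (Tp x)), 4 * A.w.eval (pairEnc x s).length,
      A.w.eval (pairEnc x s).length) with hE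
  have hEval : ∀ F x cc s', ∀ s ∈ vecs (N1 x), (E F x cc s s').val =
      cnt F (inst B (pairEnc x s) (lfsr cc s' (B.stages (pairEnc x s)))) 0 [] := by
    intro F x cc s' s hs
    have hw : 0 < A.w.eval (pairEnc x s).length := by
      have := A.next_lt (pairEnc x s, 0, [], 0, 0, false)
      simp only at this
      omega
    rw [hstB' x s hs]
    refine hGval F _ _ _ (by omega) hw ?_
    refine (Pool.Agent.Helper58.LM.cni B (pairEnc x s) (lfsr cc s' (Tp x)) ?_).1
    rw [length_lfsr, hstB' x s hs]
  have hEP : ∀ F, PolyTime (fun z : ((List Bool × List Bool) × List Bool) × List Bool =>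
      E F z.1.1.1 z.1.1.2 z.1.2 z.2) := by
    intro F
    have e0 : PolyTime (fun z : ((List Bool × List Bool) × List Bool) × List Bool =>
        pairEnc z.1.1.1 z.1.2) :=
      PolyTime.comp (g := fun z : List Bool × List Bool => pairEnc z.1 z.2)
        (f := fun z : ((List Bool × List Bool) × List Bool) × List Bool => (z.1.1.1, z.1.2))
        hpairP (by fun_prop)
    have e1 : PolyTime (fun z : ((List Bool × List Bool) × List Bool) × List Bool =>
        Tp z.1.1.1) := PolyTime.comp (g := Tp) hTpP (by fun_prop)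
    have e2 : PolyTime (fun z : ((List Bool × List Bool) × List Bool) × List Bool =>
        A.w.eval (pairEnc z.1.1.1 z.1.2).length) := PT_eval A.w (PolyTime.length e0)
    have e3 : PolyTime (fun z : ((List Bool × List Bool) × List Bool) × List Bool =>
        lfsr z.1.1.2 z.2 (Tp z.1.1.1)) := PT_lfsr (by fun_prop) (by fun_prop) e1
    have e4 : PolyTime (fun z : ((List Bool × List Bool) × List Bool) × List Bool =>
        inst B (pairEnc z.1.1.1 z.1.2) (lfsr z.1.1.2 z.2 (Tp z.1.1.1))) :=
      PolyTime.comp (g := fun y : List Bool × List Bool => inst B y.1 y.2)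
        (f := fun z : ((List Bool × List Bool) × List Bool) × List Bool =>
          (pairEnc z.1.1.1 z.1.2, lfsr z.1.1.2 z.2 (Tp z.1.1.1))) hinst (PolyTime.pair e0 e3)
    exact PolyTime.comp (g := G)
      (f := fun z : ((List Bool × List Bool) × List Bool) × List Bool =>
      (F, inst B (pairEnc z.1.1.1 z.1.2) (lfsr z.1.1.2 z.2 (Tp z.1.1.1)),
        4 * A.w.eval (pairEnc z.1.1.1 z.1.2).length, A.w.eval (pairEnc z.1.1.1 z.1.2).length)) hG
      (PolyTime.pair (by fun_prop) (PolyTime.pair e4 (PolyTime.pair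
        (PolyTime.mul (by fun_prop) e2) e2)))
  set EE : List ℕ → List Bool → List Bool → BN := fun F x cc =>
    BN.sum ((SS A (N1 x) x).map fun s =>
      BN.sum ((vecs (N x)).map fun s' => E F x cc s s')) with hEE
  have hEEP : ∀ F, PolyTime (fun z : List Bool × List Bool => EE F z.1 z.2) := by
    intro F
    refine PolyTime.bn_sum ?_
    refine PolyTime.list_map (f := fun (z : List Bool × List Bool) s =>
      BN.sum ((vecs (N z.1)).map fun s' => E F z.1 z.2 s s'))
      (PolyTime.comp (g := fun x => SS A (N1 x) x) hSSP (by fun_prop)) ?_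
    refine PolyTime.bn_sum ?_
    refine PolyTime.list_map (f := fun (z : (List Bool × List Bool) × List Bool) s' =>
      E F z.1.1 z.1.2 z.2 s') (PT_vecs (PolyTime.comp (g := N) hNP (by fun_prop))) ?_
    exact hEP F
  -- the decision
  set lhs : List Bool → List Bool → BN := fun x cc =>
    BN.ofNat (g x + 1) * BN.pow2 (Tp x) * BN.ofNat (vecs (N x)).length +
      BN.ofNat (u.eval x.length) * EE [6, 7] x cc with hlhs
  set rhs : List Bool → List Bool → BN := fun x cc =>
    BN.ofNat (u.eval x.length) * EE [4, 5] x cc with hrhs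
  have huP' : PolyTime (fun z : List Bool × List Bool => BN.ofNat (u.eval z.1.length)) :=
    PolyTime.bn_ofNat (PT_eval u (by fun_prop))
  have hlP : PolyTime (fun z : List Bool × List Bool => lhs z.1 z.2) := by
    refine PolyTime.bn_add (PolyTime.bn_mul (PolyTime.bn_mul (PolyTime.bn_ofNat
      (PolyTime.add (PolyTime.comp (g := g) hgP (by fun_prop)) (by fun_prop)))
      (PolyTime.bn_pow2 (PolyTime.comp (g := Tp) hTpP (by fun_prop))))
      (PolyTime.bn_ofNat (PolyTime.length
      (PT_vecs (PolyTime.comp (g := N) hNP (by fun_prop)))))) (PolyTime.bn_mul huP' (hEEP _))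
  have hrP : PolyTime (fun z : List Bool × List Bool => rhs z.1 z.2) :=
    PolyTime.bn_mul huP' (hEEP _)
  refine inP_of_PT (f := fun x => (vecs (N x)).all fun cc => decide (lhs x cc ≤ rhs x cc)) ?_
    fun x => ?_
  · refine PolyTime.all (f := fun x cc => decide (lhs x cc ≤ rhs x cc)) (PT_vecs hNP) ?_
    exact PolyTime.bn_le hlP hrP
  · rw [List.all_eq_true]
    set S := (vecs (N1 x)).toFinset.filter (fun s => Val A x s = true) with hS
    have hSv : ∀ s ∈ S, s ∈ vecs (N1 x) ∧ Val A x s = true := by
      intro s hs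
      rw [hS, Finset.mem_filter, List.mem_toFinset] at hs
      exact hs
    have hScard : S.card ≤ 2 * N1 x + 1 :=
      (Finset.card_filter_le _ _).trans ((List.toFinset_card_le _).trans (length_vecs_le _))
    have hV : 0 < (vecs (N x)).length := by
      obtain ⟨k, -, hk⟩ := vecs_spec (N x)
      exact List.length_pos_of_mem ((hk (List.replicate k false)).2 (by simp))
    have hEEval : ∀ F cc, (EE F x cc).val = ∑ s ∈ S, ((vecs (N x)).map fun s' =>
        cnt F (inst B (pairEnc x s) (lfsr cc s' (B.stages (pairEnc x s)))) 0 []).sum := by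
      intro F cc
      rw [hEE]
      simp only [BN.val_sum, List.map_map]
      rw [show (BN.val ∘ fun s => BN.sum ((vecs (N x)).map fun s' => E F x cc s s')) =
        fun s => (BN.sum ((vecs (N x)).map fun s' => E F x cc s s')).val from rfl, sum_SS]
      refine Finset.sum_congr rfl fun s hs => ?_
      rw [BN.val_sum, List.map_map]
      congr 1
      apply List.map_congr_left
      intro s' _
      exact hEval F x cc s' s (hSv s hs).1
    have hiff : ∀ cc ∈ vecs (N x), (lhs x cc ≤ rhs x cc ↔
        (g x + 1) * 2 ^ Tp x ≤ u.eval x.length * ∑ s ∈ S, orth B (pairEnc x s) (N x) cc) := by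
      intro cc hcc
      have e1 : (EE [4, 5] x cc).val = (EE [6, 7] x cc).val +
          (vecs (N x)).length * ∑ s ∈ S, orth B (pairEnc x s) (N x) cc := by
        rw [hEEval, hEEval, Finset.mul_sum, ← Finset.sum_add_distrib]
        refine Finset.sum_congr rfl fun s hs => ?_
        have e2 := signs B (pairEnc x s) Pool.Agent.Helper61.LM.hsa
          Pool.Agent.Helper54.LM.lin Pool.Agent.Helper58.LM.cni (hN2 x) hcc
        have e3 : ((((vecs (N x)).map fun s' => cnt [4, 5] (inst B (pairEnc x s)
            (lfsr cc s' (B.stages (pairEnc x s)))) 0 []).sum : ℕ) : ℤ) =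
            (((vecs (N x)).map fun s' => cnt [6, 7] (inst B (pairEnc x s)
            (lfsr cc s' (B.stages (pairEnc x s)))) 0 []).sum : ℕ) +
            ((vecs (N x)).length : ℤ) * (orth B (pairEnc x s) (N x) cc : ℤ) := by
          linarith
        exact_mod_cast e3
      rw [BN.le_def, hlhs, hrhs]
      simp only [BN.val_add, BN.val_mul, BN.val_ofNat, BN.val_pow2]
      rw [e1]
      set b := (EE [6, 7] x cc).val
      set O := ∑ s ∈ S, orth B (pairEnc x s) (N x) cc
      set V := (vecs (N x)).length
      have h3 : u.eval x.length * (b + V * O) =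
          u.eval x.length * O * V + u.eval x.length * b := by ring
      rw [h3, Nat.add_le_add_iff_right]
      exact Nat.mul_le_mul_right_iff hV
    -- the number of the accepting runs
    have hacc : ∑ s ∈ S, B.acc (pairEnc x s) = 2 ^ (Tp x - A.stages x) * A.acc x := by
      rw [hsum A x (N1 x) (fun a ρ h => ?_), Finset.mul_sum]
      · refine Finset.sum_congr rfl fun s hs => ?_
        have hv := (hSv s hs).2
        have hk : kk A x s (A.stages x) ≤ s.length := by
          rw [Val, Bool.and_eq_true, decide_eq_true_iff] at hv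
          exact hv.1
        rw [hB, hrun A h1 h2 h3 h4 h5 h6 x s hk, ← hB, hstB' x s (hSv s hs).1]
      · have e1 := hR x a ρ h
        have e2 : 2 ^ a.length ≤ 2 ^ (c * Nat.log 2 x.length + c) :=
          Nat.pow_le_pow_right (by norm_num) e1
        refine e2.trans ?_
        rw [pow_add, mul_comm c, pow_mul, mul_comm]
        refine Nat.mul_le_mul_left _ (Nat.pow_le_pow_left ?_ c)
        rcases Nat.eq_zero_or_pos x.length with h0 | h0
        · rw [h0]; simp
        · exact (Nat.pow_log_le_self 2 h0.ne').trans (Nat.le_succ _)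
    have hpow : 2 ^ Tp x = 2 ^ (Tp x - A.stages x) * 2 ^ A.stages x := by
      rw [← pow_add, Nat.sub_add_cancel (hTle x)]
    constructor
    · intro hx cc hcc
      rw [decide_eq_true_iff, hiff cc hcc]
      calc (g x + 1) * 2 ^ Tp x = 2 ^ (Tp x - A.stages x) * ((g x + 1) * 2 ^ A.stages x) := by
            rw [hpow]; ring
        _ ≤ 2 ^ (Tp x - A.stages x) * (u.eval x.length * A.acc x) :=
            Nat.mul_le_mul_left _ (hyes x hx)
        _ = u.eval x.length * ∑ s ∈ S, B.acc (pairEnc x s) := by rw [hacc]; ring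
        _ ≤ _ := Nat.mul_le_mul_left _ (Finset.sum_le_sum fun s _ =>
            acc_le_orth B (pairEnc x s) Pool.Agent.Helper61.LM.acc _ cc)
    · intro hall
      by_contra hx
      obtain ⟨cc, hcc, e1⟩ := orth_sum_le B S (fun s => pairEnc x s) (Tp x)
        (fun s hs => hstB' x s (hSv s hs).1)
        (fun s _ => by
          rw [Pool.Agent.Helper78.LM.LinMachine.numReads, hB, red]
          simp) (hN2 x)
      have e2 := (hiff cc hcc).1 (decide_eq_true_iff.1 (hall cc hcc))
      have e3 : u.eval x.length * ∑ s ∈ S, B.acc (pairEnc x s) ≤ g x * 2 ^ Tp x := by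
        rw [hacc, hpow]
        calc u.eval x.length * (2 ^ (Tp x - A.stages x) * A.acc x)
            = 2 ^ (Tp x - A.stages x) * (u.eval x.length * A.acc x) := by ring
          _ ≤ 2 ^ (Tp x - A.stages x) * (g x * 2 ^ A.stages x) :=
            Nat.mul_le_mul_left _ (hno x hx)
          _ = _ := by ring
      have e4 : N x * ((g x + 1) * 2 ^ Tp x) ≤ N x * (g x * 2 ^ Tp x) +
          u.eval x.length * (Tp x * (S.card * 2 ^ Tp x)) := by
        calc N x * ((g x + 1) * 2 ^ Tp x)
            ≤ N x * (u.eval x.length * ∑ s ∈ S, orth B (pairEnc x s) (N x) cc) :=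
              Nat.mul_le_mul_left _ e2
          _ = u.eval x.length * (N x * ∑ s ∈ S, orth B (pairEnc x s) (N x) cc) := by ring
          _ ≤ u.eval x.length * (N x * ∑ s ∈ S, B.acc (pairEnc x s) +
              Tp x * (S.card * 2 ^ Tp x)) := Nat.mul_le_mul_left _ e1
          _ = N x * (u.eval x.length * ∑ s ∈ S, B.acc (pairEnc x s)) +
              u.eval x.length * (Tp x * (S.card * 2 ^ Tp x)) := by ring
          _ ≤ _ := Nat.add_le_add_right (Nat.mul_le_mul_left _ e3) _
      have e5 : N x * 2 ^ Tp x ≤ u.eval x.length * (Tp x * (S.card * 2 ^ Tp x)) := by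
        have : N x * ((g x + 1) * 2 ^ Tp x) =
            N x * (g x * 2 ^ Tp x) + N x * 2 ^ Tp x := by ring
        omega
      have e6 : u.eval x.length * (Tp x * (S.card * 2 ^ Tp x)) ≤
          (u.eval x.length * Tp x * (2 * N1 x + 1)) * 2 ^ Tp x := by
        calc u.eval x.length * (Tp x * (S.card * 2 ^ Tp x))
            = u.eval x.length * Tp x * S.card * 2 ^ Tp x := by ring
          _ ≤ _ := Nat.mul_le_mul_right _ (Nat.mul_le_mul_left _ hScard)
      have e7 := Nat.le_of_mul_le_mul_right (e5.trans e6) (by positivity)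
      have e8 : N x = u.eval x.length * Tp x * (2 * N1 x + 1) + 2 := rfl
      omega

end Pool.Agent.Helper78.LN
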