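import Mathlib.Data.Matrix.Mul
import Mathlib.Data.Nat.Log
import Pool.Agent.Helper51.ZP.Defs

/-!
# Randomized machines with a stack and a memory with linear access

Turing machines are Mathlib's multi-stack machines; `PolyTimeComputable` is in
`Pool.Agent.Helper81.CxDefs`, the coding `encOf` of structured data (with numbers in unary) is in
`Pool.Agent.Helper81.CxData`, and `InP` is in `Pool.Agent.Helper51.ZP.Defs`.
-/

namespace Pool.Agent.Helper78.LN

open Pool.Agent.Helper81.CC Matrix

/-- What is known without the coins, given the answers: the input, the number of the stage, and
the list of all answers so far. -/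
abbrev Sched := List Bool × ℕ × List Bool

/-- What the control of the machine sees at a stage: the input, the number of the stage, the list
of all answers so far, the state, the symbol on top of the stack (`0` if the stack is empty), and
the coin tossed at this stage. -/
abbrev View := List Bool × ℕ × List Bool × ℕ × ℕ × Bool

/-- The vector over `F_2` with `m` coordinates given by a string of bits (filled up by `0`). -/
def toVec (m : ℕ) (l : List Bool) : Fin m → ZMod 2 := fun i => if l.getD i false then 1 else 0

/-- A randomized machine which tosses one coin at each stage, and which has a control with
polynomially many states, a stack, and a memory that contains a vector over `F_2`. At each stage a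
matrix is applied to the memory, a vector chosen by the control is added, and the value of a linear
form of the memory is tested. The matrix and the linear form may depend on the answers so far. -/
structure LinMachine where
  /-- the number of stages, as a polynomial in the length of the input -/
  T : Polynomial ℕ
  /-- the dimension of the memory -/
  m : Polynomial ℕ
  /-- the number of the states, and of the stack symbols -/
  w : Polynomial ℕ
  /-- the next state -/
  next : View → ℕ
  /-- the symbols which replace the top symbol of the stack -/
  push : View → List ℕ
  /-- the vector added to the memory -/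
  vec : View → List Bool
  /-- `row (z, i)` is the `i`-th row of the matrix applied to the memory -/
  row : Sched × ℕ → List Bool
  /-- the linear form -/
  form : Sched → List Bool
  /-- the value of the linear form is read at this stage -/
  reads : Sched → Bool
  next_poly : PolyTimeComputable (encOf View) (encOf ℕ) next
  push_poly : PolyTimeComputable (encOf View) (encOf (List ℕ)) push
  vec_poly : PolyTimeComputable (encOf View) (encOf (List Bool)) vec
  row_poly : PolyTimeComputable (encOf (Sched × ℕ)) (encOf (List Bool)) row
  form_poly : PolyTimeComputable (encOf Sched) (encOf (List Bool)) form
  reads_poly : PolyTimeComputable (encOf Sched) (encOf Bool) reads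
  next_lt : ∀ z, next z < w.eval z.1.length
  push_lt : ∀ z, ∀ s ∈ push z, s < w.eval z.1.length
  push_le : ∀ z, (push z).length ≤ 2

/-- Configurations of a machine with a memory of dimension `m`. -/
structure Conf (m : ℕ) where
  /-- the state -/
  q : ℕ
  /-- the contents of the stack, the top symbol first -/
  st : List ℕ
  /-- the contents of the memory -/
  v : Fin m → ZMod 2
  /-- the answers so far -/
  a : List Bool

namespace LinMachine

variable (A : LinMachine)

/-- The number of stages on the input `x`. -/
def stages (x : List Bool) : ℕ := A.T.eval x.length

/-- The dimension of the memory on the input `x`. -/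
def dim (x : List Bool) : ℕ := A.m.eval x.length

/-- The matrix applied to the memory at the stage `t`, if the answers so far are `a`. -/
def mat (x : List Bool) (t : ℕ) (a : List Bool) :
    Matrix (Fin (A.dim x)) (Fin (A.dim x)) (ZMod 2) :=
  fun i => toVec (A.dim x) (A.row ((x, t, a), i))

/-- What the control sees at the stage `t` in the configuration `c` with the coin `b`. -/
def view (x : List Bool) (t : ℕ) (b : Bool) (c : Conf (A.dim x)) : View :=
  (x, t, c.a, c.q, c.st.headD 0, b)

/-- The memory after the stage `t`: the matrix of the stage is applied to the memory, and the
vector chosen by the control is added. -/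
def mem (x : List Bool) (t : ℕ) (b : Bool) (c : Conf (A.dim x)) : Fin (A.dim x) → ZMod 2 :=
  A.mat x t c.a *ᵥ c.v + toVec (A.dim x) (A.vec (A.view x t b c))

/-- The value of the linear form of the stage `t`, after the memory has been updated. -/
def value (x : List Bool) (t : ℕ) (b : Bool) (c : Conf (A.dim x)) : ZMod 2 :=
  toVec (A.dim x) (A.form (x, t, c.a)) ⬝ᵥ A.mem x t b c

/-- The stage `t` with the coin `b` in the configuration `c`. If the value of the linear form is
read at this stage, it is added to the list of the answers. Otherwise the run fails if the value of
the linear form is not `0`. -/
def step (x : List Bool) (t : ℕ) (b : Bool) (c : Conf (A.dim x)) : Option (Conf (A.dim x)) :=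
  if A.reads (x, t, c.a) = true then
    some ⟨A.next (A.view x t b c), A.push (A.view x t b c) ++ c.st.tail, A.mem x t b c,
      c.a ++ [decide (A.value x t b c = 1)]⟩
  else if A.value x t b c = 0 then
    some ⟨A.next (A.view x t b c), A.push (A.view x t b c) ++ c.st.tail, A.mem x t b c, c.a⟩
  else none

/-- The run with the coins `ρ`, which starts at the stage `t` in the configuration `c`; the result
is `none` if the run fails. -/
def run (x : List Bool) : ℕ → List Bool → Conf (A.dim x) → Option (Conf (A.dim x))
  | _, [], c => some c
  | t, b :: ρ, c => (A.step x t b c).bind (run x (t + 1) ρ)

/-- The run with the coins `ρ` accepts, with the list `a` of answers: it does not fail, and it ends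
in the state `1` with an empty stack. It starts in the state `0` with an empty stack, with the
memory `0` and without answers. -/
def AcceptsWith (x : List Bool) (a ρ : List Bool) : Prop :=
  ∃ c, A.run x 0 ρ ⟨0, [], 0, []⟩ = some c ∧ c.q = 1 ∧ c.st = [] ∧ c.a = a

/-- The number of the accepting runs. -/
noncomputable def acc (x : List Bool) : ℕ :=
  Nat.card {ρ : Fin (A.stages x) → Bool // ∃ a, A.AcceptsWith x a (List.ofFn ρ)}

end LinMachine

/-- `L` is decided with a gap by a machine which reads at most `R |x|` bits of its memory in every
accepting run: for some number `g x`, computable in polynomial time, and a polynomial `u`, the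
probability that the machine accepts is at least `(g x + 1) / u |x|` if `x ∈ L` and at most
`g x / u |x|` if `x ∉ L`. -/
def DecidedWithGap (R : ℕ → ℕ) (L : Set (List Bool)) : Prop :=
  ∃ (A : LinMachine) (u : Polynomial ℕ) (g : List Bool → ℕ),
    PolyTimeComputable (encOf (List Bool)) (encOf ℕ) g ∧
    (∀ x a, ∀ ρ : Fin (A.stages x) → Bool, A.AcceptsWith x a (List.ofFn ρ) →
      a.length ≤ R x.length) ∧
    (∀ x ∈ L, (g x + 1) * 2 ^ A.stages x ≤ u.eval x.length * A.acc x) ∧
    (∀ x, x ∉ L → u.eval x.length * A.acc x ≤ g x * 2 ^ A.stages x)

end Pool.Agent.Helper78.LN
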