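import Pool.Agent.Helper78.LM.Final
import Pool.Agent.Helper78.LN.Defs

/-!
# Reduction of adaptive machines to machines without reading stages

For a string `s` of possible answers the machine `A` on the input `x` is simulated by the machine
`red A` on the input `pairEnc x s`, which never reads: instead of reading a bit it tests whether the
value of the linear form is the bit given by `s`. The memory of `red A` has one more coordinate,
with number `A.m.eval y.length`, which contains the constant `1`. The simulation starts at the stage
`off A y ≥ 1`, so that it ends at the last stage.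
-/

namespace Pool.Agent.Helper78.LN

open Pool.Agent.Helper81.CC Pool.Agent.Helper51.ZP Matrix
open Pool.Agent.Helper78.LM (unitV)

/-- the number of the answers before the stage `t`, if the answers are taken from `s` -/
def kk (A : LinMachine) (x s : List Bool) : ℕ → ℕ
  | 0 => 0
  | t + 1 => kk A x s t + (if A.reads (x, t, s.take (kk A x s t)) = true then 1 else 0)

section
variable (A : LinMachine)

/-- the stage at which the simulation starts -/
def off (y : List Bool) : ℕ := A.T.eval y.length + 1 - A.T.eval (unpairL y).1.length

/-- the number of the answers before the stage `t` of the simulating machine -/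
def kt (y : List Bool) (t : ℕ) : ℕ := kk A (unpairL y).1 (unpairL y).2 (t - off A y)

/-- what is known without the coins -/
def sch (y : List Bool) (t : ℕ) : Sched :=
  ((unpairL y).1, t - off A y, (unpairL y).2.take (kt A y t))

/-- what the control of the simulated machine sees -/
def vw (z : Pool.Agent.Helper78.LM.View) : View :=
  ((unpairL z.1).1, z.2.1 - off A z.1, (unpairL z.1).2.take (kt A z.1 z.2.1), z.2.2.1,
    z.2.2.2.1, z.2.2.2.2.1)

/-- the first `n` bits of a string, filled up by `0` -/
def cut (n : ℕ) (l : List Bool) : List Bool := (List.range n).map fun i => l.getD i false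

/-- the next state -/
def rNext (z : Pool.Agent.Helper78.LM.View) : ℕ :=
  if z.2.1 < off A z.1 then 0
  else if A.next (vw A z) < A.w.eval z.1.length then A.next (vw A z) else 0

/-- the symbols which replace the top symbol of the stack -/
def rPush (z : Pool.Agent.Helper78.LM.View) : List ℕ :=
  if z.2.1 < off A z.1 then []
  else (A.push (vw A z)).filter fun s => decide (s < A.w.eval z.1.length)

/-- the vector added to the memory -/
def rVec (z : Pool.Agent.Helper78.LM.View) : List Bool :=
  if z.2.1 < off A z.1 then (if z.2.1 = 0 then unitV (A.m.eval z.1.length) else [])
  else cut (A.m.eval (unpairL z.1).1.length) (A.vec (vw A z))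

/-- the rows of the matrix -/
def rRow (z : List Bool × ℕ × ℕ) : List Bool :=
  if z.2.1 < off A z.1 ∨ A.m.eval (unpairL z.1).1.length ≤ z.2.2 then unitV z.2.2
  else cut (A.m.eval (unpairL z.1).1.length) (A.row (sch A z.1 z.2.1, z.2.2))

/-- the linear forms -/
def rForm (z : List Bool × ℕ) : List Bool :=
  if z.2 < off A z.1 then []
  else (List.range (A.m.eval z.1.length + 1)).map fun i =>
    if i < A.m.eval (unpairL z.1).1.length then (A.form (sch A z.1 z.2)).getD i false
    else decide (i = A.m.eval z.1.length) &&
      (A.reads (sch A z.1 z.2) && (unpairL z.1).2.getD (kt A z.1 z.2) false)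

/-- the simulating machine -/
noncomputable def red
    (h1 : PolyTimeComputable (encOf Pool.Agent.Helper78.LM.View) (encOf ℕ) (rNext A))
    (h2 : PolyTimeComputable (encOf Pool.Agent.Helper78.LM.View) (encOf (List ℕ)) (rPush A))
    (h3 : PolyTimeComputable (encOf Pool.Agent.Helper78.LM.View) (encOf (List Bool)) (rVec A))
    (h4 : PolyTimeComputable (encOf (List Bool × ℕ × ℕ)) (encOf (List Bool)) (rRow A))
    (h5 : PolyTimeComputable (encOf (List Bool × ℕ)) (encOf (List Bool)) (rForm A))
    (h6 : PolyTimeComputable (encOf (List Bool × ℕ)) (encOf Bool) (fun _ => false)) :
    Pool.Agent.Helper78.LM.LinMachine where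
  T := A.T + 1
  m := A.m + 1
  w := A.w
  next := rNext A
  push := rPush A
  vec := rVec A
  row := rRow A
  form := rForm A
  reads _ := false
  next_poly := h1
  push_poly := h2
  vec_poly := h3
  row_poly := h4
  form_poly := h5
  reads_poly := h6
  next_lt z := by
    have h := A.next_lt (z.1, 0, [], 0, 0, false)
    unfold rNext
    split_ifs
    · simp only at h; omega
    · assumption
    · simp only at h; omega
  push_lt z s hs := by
    unfold rPush at hs
    split_ifs at hs
    · simp at hs
    · rw [List.mem_filter] at hs
      exact of_decide_eq_true hs.2
  push_le z := by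
    unfold rPush
    split_ifs
    · simp
    · exact (List.length_filter_le _ _).trans (A.push_le _)

end

/-- the number of the accepting runs whose answers are the first ones of `s` -/
noncomputable def nAcc (A : LinMachine) (x s : List Bool) : ℕ :=
  Nat.card {ρ : Fin (A.stages x) → Bool //
    A.AcceptsWith x (s.take (kk A x s (A.stages x))) (List.ofFn ρ)}

/-- the strings of answers which are filled up by `0` -/
def Val (A : LinMachine) (x s : List Bool) : Bool :=
  decide (kk A x s (A.T.eval x.length) ≤ s.length) &&
    (s.drop (kk A x s (A.T.eval x.length))).all fun b => !b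

/-- **RPT.** The functions of the simulating machine are in `PolyTime`.

Proof. The fields of `A` are in `PolyTime` (`PT_of_comp` in `LM.As1`, or `PT_of_PTC` in
`Pool.Agent.Helper8.LM.PTI`). `kk A x s t` is computed by iterating `t` times (state: the number of
the stage and the number of the answers, both at most `t`; `PolyTime.iterate_bd` or
`PolyTime.nat_rec_bd`), as a function of `((x, s), t)`; `unpairL` is in `PolyTime` (`PT_unpairL`),
`PT_eval` for the polynomials. The rest is `fun_prop` after unfolding. -/
def RptStmt : Prop := ∀ A : LinMachine,
  PolyTimeComputable (encOf Pool.Agent.Helper78.LM.View) (encOf ℕ) (rNext A) ∧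
  PolyTimeComputable (encOf Pool.Agent.Helper78.LM.View) (encOf (List ℕ)) (rPush A) ∧
  PolyTimeComputable (encOf Pool.Agent.Helper78.LM.View) (encOf (List Bool)) (rVec A) ∧
  PolyTimeComputable (encOf (List Bool × ℕ × ℕ)) (encOf (List Bool)) (rRow A) ∧
  PolyTimeComputable (encOf (List Bool × ℕ)) (encOf (List Bool)) (rForm A) ∧
  PolyTimeComputable (encOf (List Bool × ℕ)) (encOf Bool) (fun _ => false) ∧
  PolyTime (fun z : List Bool × List Bool => Val A z.1 z.2)

/-- **RUN.** The runs of the simulating machine.

Proof. Let `y = pairEnc x s`, so `unpairL y = (x, s)` (`unpairL_pairEnc`), `|x| ≤ |y|`, and, since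
the evaluation of a polynomial over `ℕ` is monotone (`eval_mono` in `LM.Smr`), `D = off A y ≥ 1`,
`D + T = T'` with `T = A.stages x`, `T' = (red A).stages y`. In the first `D` stages nothing can fail
(the form is `0`), and after `1, ..., D` stages the state is `0`, the stack is empty, and the memory
is the unit vector with number `C = A.m.eval |y|` (the matrix is the identity). So the coins of these
stages are free: the factor `2 ^ D` (compare `card_take` in `LM.SimA`; here the LAST `T` coins
matter, `Fin.appendEquiv`). Main part: for a configuration `c` of `A` with `c.a = s.take (kk t)`,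
`c.q`, `c.st` let `emb c` be the configuration of `red A` with the same state and stack, the memory
`v` on the coordinates `< A.m.eval |x|`, `1` at the coordinate `C`, `0` on the others, and the answer
`false`. Claim: for coins `ρ` for the stages `t, ..., t + |ρ| - 1` with `kk (t + |ρ|) ≤ |s|`, the run
of `A` from `c` ends in some `c'` with `c'.q = 1`, `c'.st = []`, `c'.a = s.take (kk (t + |ρ|))` iff
the run of `red A` from the stage `D + t` and `emb c` ends in a configuration with state `1` and an
empty stack. Induction on `ρ`: the value of the form of `red A` is the value of the form of `A`, plus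
the bit number `kk t` of `s` if `A` reads. If `A` does not read, both continue or both fail. If `A`
reads and the answer is the bit number `kk t` of `s`, both continue, with
`s.take (kk t) ++ [bit] = s.take (kk t + 1)`; if the answer is different, `red A` fails, and the
answers of `A` at the end start with a list that is not a prefix of `s` (a run only appends
answers). (The bounds: `A.next z < A.w.eval |x| ≤ A.w.eval |y|`, so the `if` in `rNext` and the filter
in `rPush` change nothing.) -/
def RunStmt : Prop := ∀ (A : LinMachine) h1 h2 h3 h4 h5 h6 (x s : List Bool),
  kk A x s (A.stages x) ≤ s.length →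
  (red A h1 h2 h3 h4 h5 h6).acc (pairEnc x s) =
    2 ^ ((red A h1 h2 h3 h4 h5 h6).stages (pairEnc x s) - A.stages x) * nAcc A x s

/-- **SUM.** The accepting runs, sorted by their answers.

Proof. Let `vecs N` be the list of all strings of length `k` (`vecs_spec`). Given an accepting run
with coins `ρ` and answers `a`, `|a| ≤ k`, there is exactly one `s` of length `k` with
`Val A x s = true` and `s.take (kk A x s T) = a` (`T = A.stages x`), namely
`s = a ++ replicate (k - |a|) false`: for this `s` one has `kk A x s T = |a|`, because during the run
the answers before the stage `t` are `s.take (kk A x s t)` (induction on `t`: `A` reads at the stage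
`t` iff `A.reads (x, t, s.take (kk A x s t))`); conversely, if `Val A x s` and
`s.take (kk A x s T) = a`, then `|a| = kk A x s T` since `kk A x s T ≤ |s|`, and
`s = s.take _ ++ s.drop _` with `s.drop _` a list of `false`. So the set of the accepting `ρ` is the
disjoint union over `s` of the sets counted by `nAcc A x s`. -/
def SumStmt : Prop := ∀ (A : LinMachine) (x : List Bool) (N : ℕ),
  (∀ a, ∀ ρ : Fin (A.stages x) → Bool, A.AcceptsWith x a (List.ofFn ρ) → 2 ^ a.length ≤ N) →
  A.acc x = ∑ s ∈ (vecs N).toFinset.filter (fun s => Val A x s = true), nAcc A x s

end Pool.Agent.Helper78.LN
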