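import Pool.Agent.Helper78.LN.Base

/-!
# The adaptive version: languages in `P`
-/

namespace Pool.Agent.Helper78.LN

open Pool.Agent.Helper81.CC Pool.Agent.Helper51.ZP Pool.Agent.Helper31.TMSim
open Pool.Agent.Helper83.CL Matrix Computability

/-- the next state of the trivial machine -/
def nxt0 (f : List Bool → Bool) (z : View) : ℕ := if f z.1 = true then 1 else 0

theorem PT_nxt0 {f : List Bool → Bool} (hf : PolyTime f) : PolyTime (nxt0 f) := by
  unfold nxt0
  have h1 : PolyTime (fun z : View => f z.1) := PolyTime.comp hf (by fun_prop)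
  fun_prop

/-- the trivial machine -/
noncomputable def M0 (f : List Bool → Bool) (hf : PolyTime f) : LinMachine where
  T := 1
  m := 0
  w := Polynomial.C 2
  next := nxt0 f
  push _ := []
  vec _ := []
  row _ := []
  form _ := []
  reads _ := false
  next_poly := (PT_nxt0 hf).computable
  push_poly := (PolyTime.const (α := View) ([] : List ℕ)).computable
  vec_poly := (PolyTime.const (α := View) ([] : List Bool)).computable
  row_poly := (PolyTime.const (α := Sched × ℕ) ([] : List Bool)).computable
  form_poly := (PolyTime.const (α := Sched) ([] : List Bool)).computable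
  reads_poly := (PolyTime.const (α := Sched) false).computable
  next_lt z := by
    simp only [Polynomial.eval_C, nxt0]
    split_ifs <;> norm_num
  push_lt z s hs := by simp at hs
  push_le z := by simp

theorem M0_stages (f : List Bool → Bool) (hf : PolyTime f) (x : List Bool) :
    (M0 f hf).stages x = 1 := by
  simp [LinMachine.stages, M0]

theorem M0_step (f : List Bool → Bool) (hf : PolyTime f) (x : List Bool) (b : Bool)
    (c : Conf ((M0 f hf).dim x)) :
    ∃ c', (M0 f hf).step x 0 b c = some c' ∧ c'.q = (if f x = true then 1 else 0) ∧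
      c'.st = c.st.tail ∧ c'.a = c.a := by
  have h : (M0 f hf).value x 0 b c = 0 := by
    have : toVec ((M0 f hf).dim x) ((M0 f hf).form (x, 0, c.a)) = 0 := by
      funext i
      simp [toVec, M0]
    rw [LinMachine.value, this, zero_dotProduct]
  have h' : ¬ (M0 f hf).reads (x, 0, c.a) = true := by simp [M0]
  refine ⟨_, by rw [LinMachine.step, if_neg h', if_pos h], ?_, ?_, ?_⟩
  · simp [M0, nxt0, LinMachine.view]
  · simp [M0]
  · rfl

theorem M0_accepts (f : List Bool → Bool) (hf : PolyTime f) (x a : List Bool) (b : Bool) :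
    (M0 f hf).AcceptsWith x a [b] ↔ f x = true ∧ a = [] := by
  obtain ⟨c', h1, h2, h3, h5⟩ := M0_step f hf x b ⟨0, [], 0, []⟩
  have h4 : (M0 f hf).run x 0 [b] ⟨0, [], 0, []⟩ = some c' := by
    simp only [LinMachine.run, h1]
    rfl
  constructor
  · rintro ⟨c, hc, hq, -, ha⟩
    rw [h4, Option.some.injEq] at hc
    subst hc
    refine ⟨?_, by rw [← ha, h5]⟩
    by_contra h
    rw [if_neg h] at h2
    omega
  · rintro ⟨h, rfl⟩
    exact ⟨c', h4, by rw [h2, if_pos h], by rw [h3]; rfl, h5⟩

theorem M0_accepts' (f : List Bool → Bool) (hf : PolyTime f) (x a : List Bool)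
    (ρ : Fin ((M0 f hf).stages x) → Bool) :
    (M0 f hf).AcceptsWith x a (List.ofFn ρ) ↔ f x = true ∧ a = [] := by
  have hl : (List.ofFn ρ).length = 1 := by
    rw [List.length_ofFn, M0_stages]
  obtain ⟨b, hb⟩ := List.length_eq_one_iff.1 hl
  rw [hb]
  exact M0_accepts f hf x a b

theorem M0_acc_pos (f : List Bool → Bool) (hf : PolyTime f) (x : List Bool) (h : f x = true) :
    (M0 f hf).acc x = 2 := by
  rw [LinMachine.acc]
  have e : Nat.card {ρ : Fin ((M0 f hf).stages x) → Bool //
      ∃ a, (M0 f hf).AcceptsWith x a (List.ofFn ρ)} =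
      Nat.card (Fin ((M0 f hf).stages x) → Bool) :=
    Nat.card_congr (Equiv.subtypeUnivEquiv fun ρ =>
      ⟨[], (M0_accepts' f hf x [] ρ).2 ⟨h, rfl⟩⟩)
  rw [e, Nat.card_eq_fintype_card, Fintype.card_fun, Fintype.card_bool, Fintype.card_fin, M0_stages]
  norm_num

theorem M0_acc_neg (f : List Bool → Bool) (hf : PolyTime f) (x : List Bool) (h : f x = false) :
    (M0 f hf).acc x = 0 := by
  rw [LinMachine.acc]
  have : IsEmpty {ρ : Fin ((M0 f hf).stages x) → Bool //
      ∃ a, (M0 f hf).AcceptsWith x a (List.ofFn ρ)} :=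
    ⟨fun ρ => by
      obtain ⟨a, ha⟩ := ρ.2
      have := ((M0_accepts' f hf x a ρ.1).1 ha).1
      rw [h] at this
      exact Bool.false_ne_true this⟩
  exact Nat.card_of_isEmpty

/-- **IPG.** -/
theorem ipg (R : ℕ → ℕ) (L : Set (List Bool)) (hL : InP L) : DecidedWithGap R L := by
  obtain ⟨f, hf, h⟩ := PT_of_inP hL
  refine ⟨M0 f hf, 1, fun _ => 0, (PolyTime.const (α := List Bool) (0 : ℕ)).computable, ?_, ?_, ?_⟩
  · intro x a ρ hρ
    rw [((M0_accepts' f hf x a ρ).1 hρ).2]
    exact Nat.zero_le _
  · intro x hx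
    rw [M0_acc_pos f hf x ((h x).1 hx), M0_stages]
    simp
  · intro x hx
    have : f x = false := by
      rw [← Bool.not_eq_true, ← h x]
      exact hx
    rw [M0_acc_neg f hf x this]
    simp

end Pool.Agent.Helper78.LN
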