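import Pool.Agent.Helper78.LN.As2
import Pool.Agent.Helper78.LN.Ipg
import Pool.Agent.Helper79.LN.RPT
import Pool.Agent.Helper33.LN.RUN
import Pool.Agent.Helper87.LN.SUM

/-!
# The adaptive version: the main theorem
-/

namespace Pool.Agent.Helper78.LN

open Pool.Agent.Helper51.ZP

theorem main (c : ℕ) (L : Set (List Bool)) :
    InP L ↔ DecidedWithGap (fun n => c * Nat.log 2 n + c) L :=
  ⟨ipg _ L, as2 Pool.Agent.Helper79.LNA.rpt Pool.Agent.Helper33.LN.run
    Pool.Agent.Helper87.LN.SUM_holds c L⟩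

end Pool.Agent.Helper78.LN
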